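import Mathlib

set_option autoImplicit false

/-!
# Perfect `s`-bases of size `m` exist only for `s = 1` or `m = 1`

If `A = {a_1, …, a_m}` is a perfect `s`-basis of `G`, then all sums `∑ λ_i a_i` with `λ_i ≥ 0` and
`∑ λ_i ≤ s` are distinct.  Write `s = a + b`.  Then also all the elements `∑ x_i a_i`, where `x` runs
over the integer vectors with `∑ x_i⁺ ≤ a` and `∑ x_i⁻ ≤ b`, are distinct.  A greedy procedure gives an
injection of the first set of coefficient vectors into the second one that is not surjective as soon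
as `m ≥ 2` and `a ≥ b ≥ 1`, so `G` would have too many elements.
-/

namespace Pool.Agent.Results.MP_acd90d_co.NoPerfectBasis

universe u

/-- `A` is an `s`-basis of `G`: every element of `G` is a sum `∑_{a ∈ A} c a • a` with nonnegative
integer coefficients whose sum is at most `s`. -/
def IsSBasis {G : Type*} [AddCommGroup G] (A : Finset G) (s : ℕ) : Prop :=
  ∀ g : G, ∃ c : G → ℕ, ∑ a ∈ A, c a ≤ s ∧ ∑ a ∈ A, c a • a = g

/-- `A` is a perfect `s`-basis of `G`: it is an `s`-basis and `|G| = C(|A| + s, s)`. -/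
def IsPerfectSBasis {G : Type*} [AddCommGroup G] (A : Finset G) (s : ℕ) : Prop :=
  IsSBasis A s ∧ Nat.card G = (A.card + s).choose s

/-- the greedy map from nonnegative vectors of weight at most `a + b` to integer vectors whose
positive part has weight at most `a` and whose negative part has weight at most `b` -/
def F : (m : ℕ) → ℕ → ℕ → (Fin m → ℕ) → (Fin m → ℤ)
  | 0, _, _, _ => Fin.elim0
  | m + 1, a, b, l =>
    if l 0 ≤ a then Fin.cons (l 0 : ℤ) (F m (a - l 0) b (Fin.tail l))
    else Fin.cons (-((l 0 - a : ℕ) : ℤ)) (F m a (b - (l 0 - a)) (Fin.tail l))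

theorem F_pos_le : ∀ (m a b : ℕ) (l : Fin m → ℕ), ∑ i, (F m a b l i).toNat ≤ ∑ i, l i
  | 0, _, _, _ => by simp
  | m + 1, a, b, l => by
    rw [F]
    split_ifs with h
    · rw [Fin.sum_univ_succ, Fin.sum_univ_succ]
      simp only [Fin.cons_zero, Fin.cons_succ, Int.toNat_natCast]
      have := F_pos_le m (a - l 0) b (Fin.tail l)
      have e : ∑ i, Fin.tail l i = ∑ i : Fin m, l i.succ := rfl
      omega
    · rw [Fin.sum_univ_succ, Fin.sum_univ_succ]
      simp only [Fin.cons_zero, Fin.cons_succ]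
      have := F_pos_le m a (b - (l 0 - a)) (Fin.tail l)
      have e : ∑ i, Fin.tail l i = ∑ i : Fin m, l i.succ := rfl
      have h2 : (-((l 0 - a : ℕ) : ℤ)).toNat = 0 := by omega
      omega

theorem F_mem : ∀ (m a b : ℕ) (l : Fin m → ℕ), ∑ i, l i ≤ a + b →
    ∑ i, (F m a b l i).toNat ≤ a ∧ ∑ i, (-(F m a b l i)).toNat ≤ b
  | 0, _, _, _ => by simp
  | m + 1, a, b, l => by
    intro hl
    rw [Fin.sum_univ_succ] at hl
    rw [F]
    split_ifs with h
    · rw [Fin.sum_univ_succ, Fin.sum_univ_succ]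
      simp only [Fin.cons_zero, Fin.cons_succ, Int.toNat_natCast]
      have := F_mem m (a - l 0) b (Fin.tail l) (by simp only [Fin.tail]; omega)
      have h2 : (-(l 0 : ℤ)).toNat = 0 := by omega
      omega
    · rw [Fin.sum_univ_succ, Fin.sum_univ_succ]
      simp only [Fin.cons_zero, Fin.cons_succ]
      have := F_mem m a (b - (l 0 - a)) (Fin.tail l) (by simp only [Fin.tail]; omega)
      have h2 : (-((l 0 - a : ℕ) : ℤ)).toNat = 0 := by omega
      have h3 : (-(-((l 0 - a : ℕ) : ℤ))).toNat = l 0 - a := by omega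
      omega

theorem F_inj : ∀ (m a b : ℕ) (l l' : Fin m → ℕ), F m a b l = F m a b l' → l = l'
  | 0, _, _, _, _ => fun _ => Subsingleton.elim _ _
  | m + 1, a, b, l, l' => by
    intro h
    rw [F, F] at h
    have key : l 0 = l' 0 ∧ Fin.tail l = Fin.tail l' := by
      split_ifs at h with h1 h2 h2
      · obtain ⟨h3, h4⟩ := Fin.cons_injective2 h
        have h3' : l 0 = l' 0 := by exact_mod_cast h3
        rw [← h3'] at h4
        exact ⟨h3', F_inj m _ _ _ _ h4⟩
      · obtain ⟨h3, h4⟩ := Fin.cons_injective2 h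
        omega
      · obtain ⟨h3, h4⟩ := Fin.cons_injective2 h
        omega
      · obtain ⟨h3, h4⟩ := Fin.cons_injective2 h
        have h3' : l 0 = l' 0 := by omega
        rw [← h3'] at h4
        exact ⟨h3', F_inj m _ _ _ _ h4⟩
    rw [← Fin.cons_self_tail l, ← Fin.cons_self_tail l', key.1, key.2]

/-- nonnegative integer vectors of weight at most `s` -/
abbrev Lam (m s : ℕ) : Type := {l : Fin m → ℕ // ∑ i, l i ≤ s}

/-- add a slack variable -/
noncomputable def toAnti (m s : ℕ) (l : Lam m s) :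
    {f : Fin (m + 1) →₀ ℕ // f ∈ (Finset.univ : Finset (Fin (m + 1))).finsuppAntidiag s} :=
  ⟨Finsupp.equivFunOnFinite.symm (Fin.cons (s - ∑ i, l.1 i) l.1), by
    rw [Finset.mem_finsuppAntidiag]
    refine ⟨?_, Finset.subset_univ _⟩
    rw [Fin.sum_univ_succ]
    simp only [Finsupp.equivFunOnFinite_symm_apply_apply, Fin.cons_zero, Fin.cons_succ]
    have := l.2
    omega⟩

theorem toAnti_inj (m s : ℕ) : Function.Injective (toAnti m s) := by
  intro l l' h
  have h1 : (toAnti m s l).1 = (toAnti m s l').1 := by rw [h]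
  simp only [toAnti] at h1
  have h2 := Finsupp.equivFunOnFinite.symm.injective h1
  exact Subtype.ext (Fin.cons_injective2 h2).2

instance (m s : ℕ) : Finite (Lam m s) := Finite.of_injective _ (toAnti_inj m s)

theorem card_Lam (m s : ℕ) : Nat.card (Lam m s) ≤ (m + s).choose s := by
  refine (Nat.card_le_card_of_injective _ (toAnti_inj m s)).trans ?_
  rw [Nat.card_eq_fintype_card, Fintype.card_coe, Finset.card_finsuppAntidiag_nat_eq_choose]
  simp only [Finset.card_univ, Fintype.card_fin]
  apply le_of_eq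
  congr 1
  omega

/-- **Main theorem.** No finite abelian group has a perfect `s`-basis of size `m` with `s ≥ 2` and
`m ≥ 2`. -/
theorem result (G : Type u) [AddCommGroup G] [Finite G] (A : Finset G) (s : ℕ)
    (hs : 2 ≤ s) (hA : 2 ≤ A.card) : ¬ IsPerfectSBasis A s := by
  rintro ⟨hb, hc⟩
  -- enumerate `A`
  obtain ⟨m, hm⟩ : ∃ m, A.card = m + 2 := ⟨A.card - 2, by omega⟩
  let e : Fin (m + 2) ≃ A := (Finset.equivFinOfCardEq hm).symm
  let v : Fin (m + 2) → G := fun i => (e i : G)
  let phi : Lam (m + 2) s → G := fun l => ∑ i, l.1 i • v i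
  have hsum1 : ∀ f : G → ℕ, ∑ x ∈ A, f x = ∑ i, f (v i) := by
    intro f
    rw [← Finset.sum_coe_sort A f]
    exact (Equiv.sum_comp e (fun x : A => f x)).symm
  have hsum2 : ∀ f : G → G, ∑ x ∈ A, f x = ∑ i, f (v i) := by
    intro f
    rw [← Finset.sum_coe_sort A f]
    exact (Equiv.sum_comp e (fun x : A => f x)).symm
  have hphi : Function.Surjective phi := by
    intro g
    obtain ⟨c, h1, h2⟩ := hb g
    rw [hsum1] at h1
    rw [hsum2] at h2
    exact ⟨⟨fun i => c (v i), h1⟩, h2⟩
  have hcard : Nat.card (Lam (m + 2) s) = Nat.card G := by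
    apply le_antisymm
    · rw [hc, hm]; exact card_Lam _ _
    · exact Nat.card_le_card_of_surjective phi hphi
  have hphi' : Function.Injective phi :=
    ((Nat.bijective_iff_surjective_and_card phi).2 ⟨hphi, hcard⟩).1
  -- split `s`
  obtain ⟨a, b, hab, hb1, hba⟩ : ∃ a b, a + b = s ∧ 1 ≤ b ∧ b ≤ a :=
    ⟨s - s / 2, s / 2, by omega, by omega, by omega⟩
  let psi : (Fin (m + 2) → ℤ) → G := fun x => ∑ i, x i • v i
  have hpsi : ∀ x y : Fin (m + 2) → ℤ, ∑ i, (x i).toNat ≤ a → ∑ i, (-(x i)).toNat ≤ b →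
      ∑ i, (y i).toNat ≤ a → ∑ i, (-(y i)).toNat ≤ b → psi x = psi y → x = y := by
    intro x y hx1 hx2 hy1 hy2 hxy
    let c : Lam (m + 2) s := ⟨fun i => (x i).toNat + (-(y i)).toNat, by
      rw [Finset.sum_add_distrib]; omega⟩
    let d : Lam (m + 2) s := ⟨fun i => (y i).toNat + (-(x i)).toNat, by
      rw [Finset.sum_add_distrib]; omega⟩
    have h1 : phi c = phi d := by
      have h2 : phi c - phi d = psi x - psi y := by
        simp only [phi, psi, c, d]
        rw [← Finset.sum_sub_distrib, ← Finset.sum_sub_distrib]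
        refine Finset.sum_congr rfl fun i _ => ?_
        rw [← natCast_zsmul, ← natCast_zsmul, ← sub_smul, ← sub_smul]
        congr 1
        push_cast
        omega
      rw [hxy, sub_self] at h2
      exact sub_eq_zero.1 h2
    have h3 : c = d := hphi' h1
    funext i
    have h4 : (x i).toNat + (-(y i)).toNat = (y i).toNat + (-(x i)).toNat :=
      congrFun (congrArg Subtype.val h3) i
    omega
  -- the composition is injective, hence surjective
  let f : Lam (m + 2) s → G := fun l => psi (F (m + 2) a b l.1)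
  have hf : Function.Injective f := by
    intro l l' h
    obtain ⟨h1, h2⟩ := F_mem (m + 2) a b l.1 (by have := l.2; omega)
    obtain ⟨h3, h4⟩ := F_mem (m + 2) a b l'.1 (by have := l'.2; omega)
    exact Subtype.ext (F_inj _ _ _ _ _ (hpsi _ _ h1 h2 h3 h4 h))
  have hf' : Function.Surjective f :=
    ((Nat.bijective_iff_injective_and_card f).2 ⟨hf, hcard⟩).2
  -- the vector that is missed
  let z : Fin (m + 2) → ℤ := Fin.cons (-1) (Fin.cons (a : ℤ) (fun _ => 0))
  have hz1 : ∑ i, (z i).toNat = a := by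
    rw [Fin.sum_univ_succ, Fin.sum_univ_succ]
    simp [z, Fin.cons_succ]
  have hz2 : ∑ i, (-(z i)).toNat = 1 := by
    rw [Fin.sum_univ_succ, Fin.sum_univ_succ]
    simp [z, Fin.cons_succ]
  obtain ⟨l, hl⟩ := hf' (psi z)
  obtain ⟨h1, h2⟩ := F_mem (m + 2) a b l.1 (by have := l.2; omega)
  have h5 : F (m + 2) a b l.1 = z := hpsi _ _ h1 h2 (by omega) (by omega) hl
  rw [F] at h5
  have hl2 := l.2
  rw [Fin.sum_univ_succ] at hl2
  split_ifs at h5 with h6
  · have h7 := (Fin.cons_injective2 h5).1
    omega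
  · obtain ⟨h7, h8⟩ := Fin.cons_injective2 h5
    have h9 := F_pos_le (m + 1) a (b - (l.1 0 - a)) (Fin.tail l.1)
    rw [h8] at h9
    rw [Fin.sum_univ_succ] at h9
    simp only [Fin.cons_zero, Fin.cons_succ, Int.toNat_natCast, Fin.tail] at h9
    simp only [Int.toNat_zero, Finset.sum_const_zero, add_zero] at h9
    omega

end Pool.Agent.Results.MP_acd90d_co.NoPerfectBasis
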